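import Pool.Graph.R_seed8.Helper929.Pfaffian

/-!
# Spaces of alternating forms over `ℤ/p`: the Pfaffian and the theorem of Chevalley and Warning
-/

set_option autoImplicit false

open scoped BigOperators Classical

noncomputable section

namespace Pool.Agent.Helper92.CD

open Pool.Agent.Helper929

theorem pf_sq_zmod {p : ℕ} [Fact p.Prime] {n : ℕ} (A : Matrix (Fin n) (Fin n) (ZMod p))
    (h1 : ∀ i j, A i j = - A j i) (h2 : ∀ i, A i i = 0) : pf n A ^ 2 = A.det := by
  let L : Matrix (Fin n) (Fin n) ℤ := Matrix.of fun i j =>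
    if i < j then ((A i j).val : ℤ) else if j < i then -((A j i).val : ℤ) else 0
  have hL : ∀ i j, L i j = - L j i := by
    intro i j
    simp only [L, Matrix.of_apply]
    rcases lt_trichotomy i j with h | h | h
    · rw [if_pos h, if_neg h.not_gt, if_pos h, neg_neg]
    · subst h
      simp
    · rw [if_neg h.not_gt, if_pos h, if_pos h]
  have hm : L.map (Int.castRingHom (ZMod p)) = A := by
    ext i j
    simp only [L, Matrix.map_apply, Matrix.of_apply]
    rcases lt_trichotomy i j with h | h | h
    · rw [if_pos h]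
      simp
    · subst h
      simp [h2]
    · rw [if_neg h.not_gt, if_pos h, h1 i j]
      simp
  have h3 := pf_sq_int L hL
  have h4 : (Int.castRingHom (ZMod p)) (pf n L ^ 2) = (Int.castRingHom (ZMod p)) L.det := by
    rw [h3]
  rw [map_pow, pf_map, hm, RingHom.map_det] at h4
  rw [h4]
  congr 1

theorem pf_deg {R σ : Type} [CommRing R] : ∀ (n : ℕ)
    (A : Matrix (Fin n) (Fin n) (MvPolynomial σ R)), (∀ i j, (A i j).totalDegree ≤ 1) →
    (pf n A).totalDegree ≤ n / 2
  | 0, A, _ => by simp [pf]
  | 1, A, _ => by simp [pf]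
  | (n + 2), A, h => by
    simp only [pf]
    refine MvPolynomial.totalDegree_finsetSum_le fun j _ => ?_
    have h1 := pf_deg n (A.submatrix (fun k => (j.succAbove k).succ)
      (fun k => (j.succAbove k).succ)) (fun i k => h _ _)
    have h2 : ((-1 : MvPolynomial σ R) ^ (j : ℕ)).totalDegree ≤ 0 := by
      rcases neg_one_pow_eq_or (MvPolynomial σ R) (j : ℕ) with e | e <;> rw [e] <;> simp
    refine (MvPolynomial.totalDegree_mul _ _).trans ?_
    have h3 := (MvPolynomial.totalDegree_mul ((-1 : MvPolynomial σ R) ^ (j : ℕ)) (A 0 j.succ))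
    have h4 := h 0 j.succ
    omega

theorem exists_degenerate {p : ℕ} [Fact p.Prime] {a b : ℕ} (ha : 0 < a) (hab : a < b)
    (A : Fin b → Matrix (Fin (2 * a)) (Fin (2 * a)) (ZMod p)) (h1 : ∀ s i j, A s i j = - A s j i)
    (h2 : ∀ s i, A s i i = 0) :
    ∃ c : Fin b → ZMod p, c ≠ 0 ∧ (∑ s, c s • A s).det = 0 := by
  let M : Matrix (Fin (2 * a)) (Fin (2 * a)) (MvPolynomial (Fin b) (ZMod p)) :=
    Matrix.of fun i j => ∑ s, MvPolynomial.C (A s i j) * MvPolynomial.X s
  have hdeg : (pf (2 * a) M).totalDegree ≤ a := by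
    have h3 : ∀ i j, (M i j).totalDegree ≤ 1 := by
      intro i j
      change (∑ s, MvPolynomial.C (A s i j) * MvPolynomial.X s :
        MvPolynomial (Fin b) (ZMod p)).totalDegree ≤ 1
      refine MvPolynomial.totalDegree_finsetSum_le fun s _ => ?_
      refine (MvPolynomial.totalDegree_mul _ _).trans ?_
      rw [MvPolynomial.totalDegree_C, MvPolynomial.totalDegree_X]
    have h4 := pf_deg (2 * a) M h3
    omega
  have hev : ∀ c : Fin b → ZMod p, MvPolynomial.eval c (pf (2 * a) M) =
      pf (2 * a) (∑ s, c s • A s) := by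
    intro c
    rw [pf_map]
    congr 1
    ext i j
    simp [M, Matrix.sum_apply, mul_comm]
  have halt : ∀ c : Fin b → ZMod p, pf (2 * a) (∑ s, c s • A s) ^ 2 =
      (∑ s, c s • A s).det := by
    intro c
    refine pf_sq_zmod _ (fun i j => ?_) (fun i => ?_)
    · simp only [Matrix.sum_apply, Matrix.smul_apply, smul_eq_mul]
      rw [← Finset.sum_neg_distrib]
      refine Finset.sum_congr rfl fun s _ => ?_
      rw [h1 s i j]
      ring
    · simp only [Matrix.sum_apply, Matrix.smul_apply, smul_eq_mul]
      refine Finset.sum_eq_zero fun s _ => ?_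
      rw [h2 s i, mul_zero]
  have hcw := char_dvd_card_solutions p (K := ZMod p) (f := pf (2 * a) M)
    (by rw [Fintype.card_fin]; omega)
  by_contra hcon
  push Not at hcon
  have hz : ∀ c : Fin b → ZMod p, MvPolynomial.eval c (pf (2 * a) M) = 0 ↔ c = 0 := by
    intro c
    rw [hev]
    constructor
    · intro h
      by_contra hc
      apply hcon c hc
      rw [← halt, h]
      ring
    · rintro rfl
      have h3 := halt 0
      simp only [Pi.zero_apply, zero_smul, Finset.sum_const_zero] at h3 ⊢
      have : Nonempty (Fin (2 * a)) := ⟨⟨0, by omega⟩⟩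
      rw [Matrix.det_zero] at h3
      exact pow_eq_zero_iff two_ne_zero |>.mp h3
  have h3 : Fintype.card {x : Fin b → ZMod p // MvPolynomial.eval x (pf (2 * a) M) = 0} = 1 := by
    rw [Fintype.card_eq_one_iff]
    exact ⟨⟨0, (hz 0).mpr rfl⟩, fun y => Subtype.ext ((hz y.1).mp y.2)⟩
  rw [h3] at hcw
  exact (Fact.out : p.Prime).one_lt.ne' (Nat.dvd_one.mp hcw)

/-- the bound of Beisiegel -/
theorem bound {p : ℕ} [Fact p.Prime] {a b : ℕ} (ha : 0 < a) {V W : Type} [AddCommGroup V]
    [AddCommGroup W] [Module (ZMod p) V] [Module (ZMod p) W] [Finite V] [Finite W]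
    (β : V →+ V →+ W) (hβ : ∀ x, β x x = 0) (hV : Nat.card V = p ^ (2 * a))
    (hW : Nat.card W = p ^ b) (hs : ∀ x : V, x ≠ 0 → ∀ w : W, ∃ y, β x y = w) : b ≤ a := by
  by_contra hab
  push Not at hab
  have hp : p.Prime := Fact.out
  have : Module.Finite (ZMod p) V := Module.Finite.of_finite
  have : Module.Finite (ZMod p) W := Module.Finite.of_finite
  have hfV : Module.finrank (ZMod p) V = 2 * a := by
    have h := Module.natCard_eq_pow_finrank (K := ZMod p) (V := V)
    rw [hV, Nat.card_zmod] at h
    exact (Nat.pow_right_injective hp.two_le h).symm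
  have hfW : Module.finrank (ZMod p) W = b := by
    have h := Module.natCard_eq_pow_finrank (K := ZMod p) (V := W)
    rw [hW, Nat.card_zmod] at h
    exact (Nat.pow_right_injective hp.two_le h).symm
  let v := Module.finBasisOfFinrankEq (ZMod p) V hfV
  let w := Module.finBasisOfFinrankEq (ZMod p) W hfW
  have hskew : ∀ x y, β x y = - β y x := by
    intro x y
    have h := hβ (x + y)
    rw [map_add, map_add, AddMonoidHom.add_apply, AddMonoidHom.add_apply, hβ x, hβ y, zero_add,
      add_zero] at h
    exact eq_neg_of_add_eq_zero_right h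
  obtain ⟨c, hc, hdet⟩ := exists_degenerate (p := p) ha hab
    (fun s => Matrix.of fun i j => w.repr (β (v i) (v j)) s)
    (fun s i j => by
      simp only [Matrix.of_apply]
      rw [hskew (v i) (v j)]
      simp)
    (fun s i => by
      simp only [Matrix.of_apply]
      rw [hβ]
      simp)
  obtain ⟨u, hu, hu2⟩ := Matrix.exists_vecMul_eq_zero_iff.mpr hdet
  let x : V := ∑ i, u i • v i
  have hx : x ≠ 0 := by
    intro h
    apply hu
    exact funext fun i => (Fintype.linearIndependent_iff.mp v.linearIndependent) u h i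
  let l : W →ₗ[ZMod p] ZMod p := ∑ s, c s • (w.coord s)
  have hl : ∀ j, l (β x (v j)) = 0 := by
    intro j
    have h := congrFun hu2 j
    simp only [Matrix.vecMul, dotProduct, Matrix.sum_apply, Matrix.smul_apply, Matrix.of_apply,
      smul_eq_mul, Pi.zero_apply] at h
    have h5 : β x (v j) = ∑ i, u i • β (v i) (v j) := by
      have h6 : β x (v j) = (AddMonoidHom.eval (v j)).comp β x := rfl
      rw [h6]
      change (AddMonoidHom.eval (v j)).comp β (∑ i, u i • v i) = _
      rw [map_sum]
      refine Finset.sum_congr rfl fun i _ => ?_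
      rw [ZMod.map_smul]
      rfl
    rw [h5, map_sum, ← h]
    refine Finset.sum_congr rfl fun i _ => ?_
    rw [map_smul, smul_eq_mul]
    congr 1
    simp only [l, LinearMap.sum_apply, LinearMap.smul_apply, smul_eq_mul, Module.Basis.coord_apply]
  have hl2 : ∀ y, l (β x y) = 0 := by
    intro y
    rw [← v.sum_repr y, map_sum, map_sum]
    refine Finset.sum_eq_zero fun j _ => ?_
    rw [ZMod.map_smul, map_smul, hl, smul_zero]
  apply hc
  funext s
  obtain ⟨y, hy⟩ := hs x hx (w s)
  have h := hl2 y
  rw [hy] at h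
  simp only [l, LinearMap.sum_apply, LinearMap.smul_apply, smul_eq_mul, Module.Basis.coord_apply,
    Module.Basis.repr_self] at h
  rw [Finset.sum_eq_single s] at h
  · simpa using h
  · intro t _ hts
    rw [Finsupp.single_eq_of_ne hts, mul_zero]
  · intro h7
    exact absurd (Finset.mem_univ _) h7

end Pool.Agent.Helper92.CD
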