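import Pool.Graph.R_pool_sql_team_seeded_5cf16337.K3h3.MK.Main

/-!
# Groups with two character degrees and two class sizes: counting
-/

set_option autoImplicit false
set_option linter.unusedSectionVars false
set_option linter.style.haveILetI false

open scoped BigOperators Classical

noncomputable section

namespace Pool.Agent.Helper92.CD

open Pool.Agent.Helper884 Pool.Agent.H254R3.IN
open Pool.Agent.K3h3.MK Pool.Agent.K3h3.KB
open IC (Irr)

theorem card_irr {G : Type} [Group G] [Fintype G] :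
    (Irr G).card * Nat.card G = ∑ a : G, Nat.card (Subgroup.centralizer ({a} : Set G)) := by
  have h1 : ∀ a : G, ∑ χ ∈ Irr G, χ a * χ a⁻¹ =
      (Nat.card (Subgroup.centralizer ({a} : Set G)) : ℂ) := by
    intro a
    rw [Pool.Agent.Y63.AWC.col_orth a a]
    congr 1
    refine Nat.card_congr (Equiv.subtypeEquivRight fun n => ?_)
    rw [Subgroup.mem_centralizer_singleton_iff, mul_inv_eq_iff_eq_mul]
  have h2 : ∀ χ ∈ Irr G, ∑ a : G, χ a * χ a⁻¹ = (Nat.card G : ℂ) := by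
    intro χ hχ
    have h3 := IC.B_irr (mem_Irr.mp hχ) (mem_Irr.mp hχ)
    rw [if_pos rfl] at h3
    unfold IC.B at h3
    have h4 : (Nat.card G : ℂ) ≠ 0 := IC.cardG_ne
    field_simp at h3
    exact h3
  have h3 : (((Irr G).card * Nat.card G : ℕ) : ℂ) =
      ((∑ a : G, Nat.card (Subgroup.centralizer ({a} : Set G)) : ℕ) : ℂ) := by
    push_cast
    rw [← Finset.sum_congr rfl fun a _ => h1 a, Finset.sum_comm, Finset.sum_congr rfl h2,
      Finset.sum_const, nsmul_eq_mul]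
  exact_mod_cast h3

theorem sum_sq {G : Type} [Group G] [Fintype G] :
    ∑ χ ∈ Irr G, ndeg χ ^ 2 = Nat.card G := by
  have h := Pool.Agent.Y63.AWC.col_orth (G := G) 1 1
  have h1 : Nat.card {n : G // n * 1 * n⁻¹ = 1} = Nat.card G := by
    refine Nat.card_congr (Equiv.subtypeUnivEquiv fun n => ?_)
    rw [mul_one, mul_inv_cancel]
  rw [h1] at h
  have h2 : ((∑ χ ∈ Irr G, ndeg χ ^ 2 : ℕ) : ℂ) = (Nat.card G : ℂ) := by
    rw [← h]
    push_cast
    refine Finset.sum_congr rfl fun χ hχ => ?_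
    rw [ndeg_cast (mem_Irr.mp hχ), inv_one, sq]
  exact_mod_cast h2

theorem exists_scalar {V : Type} [AddCommGroup V] [Module ℂ V] [FiniteDimensional ℂ V]
    (h : Module.finrank ℂ V = 1) (f : Module.End ℂ V) : ∃ c : ℂ, f = c • LinearMap.id := by
  obtain ⟨v, -, hv⟩ := finrank_eq_one_iff'.mp h
  obtain ⟨c, hc⟩ := hv (f v)
  refine ⟨c, LinearMap.ext fun w => ?_⟩
  obtain ⟨d, rfl⟩ := hv w
  rw [map_smul, ← hc, LinearMap.smul_apply, LinearMap.id_apply, smul_comm]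

theorem mul_of_deg {G : Type} [Group G] {χ : G → ℂ} (hχ : IsIrr χ) (h1 : χ 1 = 1) (g h : G) :
    χ (g * h) = χ g * χ h := by
  obtain ⟨V, _, _, _, ρ, hρ, rfl⟩ := hχ
  have h2 : Module.finrank ℂ V = 1 := by
    rw [Representation.char_one] at h1
    exact_mod_cast h1
  obtain ⟨c, hc⟩ := exists_scalar h2 (ρ g)
  obtain ⟨d, hd⟩ := exists_scalar h2 (ρ h)
  have h3 : ∀ e : ℂ, LinearMap.trace ℂ V (e • (LinearMap.id : V →ₗ[ℂ] V)) = e := by
    intro e
    rw [map_smul, LinearMap.trace_id, h2, Nat.cast_one, smul_eq_mul, mul_one]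
  have h4 : ρ (g * h) = (c * d) • LinearMap.id := by
    rw [map_mul, hc, hd]
    ext v
    simp [smul_smul, mul_comm]
  change LinearMap.trace ℂ V (ρ (g * h)) = LinearMap.trace ℂ V (ρ g) * LinearMap.trace ℂ V (ρ h)
  rw [h4, hc, hd, h3, h3, h3]

/-- the linear characters -/
theorem card_lin {G : Type} [Group G] [Fintype G] :
    ((Irr G).filter fun χ => ndeg χ = 1).card = (commutator G).index := by
  have e1 : Nat.card (G →* ℂˣ) = (commutator G).index := by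
    rw [Nat.card_congr (Abelianization.lift (G := G) (A := ℂˣ)),
      Pool.Agent.K3h3.KB.card_dual]
    rfl
  haveI : Finite (G →* ℂˣ) := by
    have h : Finite (Abelianization G →* ℂˣ) := inferInstance
    exact Finite.of_equiv _ (Abelianization.lift (G := G) (A := ℂˣ)).symm
  haveI : Fintype (G →* ℂˣ) := Fintype.ofFinite _
  rw [← e1, Nat.card_eq_fintype_card, ← Finset.card_univ]
  symm
  refine Finset.card_bij (fun l _ => fun g => ((l g : ℂˣ) : ℂ)) ?_ ?_ ?_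
  · intro l _
    refine Finset.mem_filter.mpr ⟨mem_Irr.mpr (lin_irr l), ndeg_eq ?_⟩
    simp
  · intro l _ m _ h
    ext g
    exact congrFun h g
  · intro χ hχ
    obtain ⟨h1, h2⟩ := Finset.mem_filter.mp hχ
    have h3 := mem_Irr.mp h1
    have h4 : χ 1 = 1 := by
      rw [← ndeg_cast h3, h2, Nat.cast_one]
    have hmul := mul_of_deg h3 h4
    let f : G →* ℂ := { toFun := χ, map_one' := h4, map_mul' := hmul }
    exact ⟨f.toHomUnits, Finset.mem_univ _, funext fun g => rfl⟩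

theorem not_dvd {p : ℕ} (hp : p.Prime) {u v : ℕ} (hu : 0 < u) (hv : 0 < v) :
    ¬ (p : ℤ) ∣ (p : ℤ) ^ u + (p : ℤ) ^ v - 1 := by
  intro h
  have h1 : (p : ℤ) ∣ (p : ℤ) ^ u + (p : ℤ) ^ v :=
    dvd_add (dvd_pow_self _ hu.ne') (dvd_pow_self _ hv.ne')
  have h2 : (p : ℤ) ∣ 1 := by
    have h3 := dvd_sub h1 h
    rwa [sub_sub_cancel] at h3
  exact (Nat.prime_iff_prime_int.mp hp).not_isUnit (isUnit_of_dvd_one h2)

theorem exp_eq {p : ℕ} (hp : p.Prime) {t s : ℕ} {A B : ℤ} (hB : ¬ (p : ℤ) ∣ B)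
    (h : (p : ℤ) ^ t * A = (p : ℤ) ^ s * B) : t ≤ s := by
  by_contra hlt
  push Not at hlt
  obtain ⟨d, rfl⟩ := Nat.exists_eq_add_of_lt hlt
  have hp0 : (p : ℤ) ^ s ≠ 0 := pow_ne_zero _ (by exact_mod_cast hp.ne_zero)
  have h1 : (p : ℤ) ^ s * (p ^ (d + 1) * A) = (p : ℤ) ^ s * B := by
    rw [← h]
    ring
  have h2 := mul_left_cancel₀ hp0 h1
  exact hB (h2 ▸ Dvd.dvd.mul_right (dvd_pow_self _ d.succ_ne_zero) _)

theorem exists_sub {p : ℕ} (hp : p.Prime) {ρ e c : ℕ} {k : ℤ} (he : 0 < e)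
    (h : (p : ℤ) ^ c * (k - (p : ℤ) ^ ρ) = (p : ℤ) ^ ρ * ((p : ℤ) ^ e - 1)) :
    ∃ t, ρ = c + t ∧ k = (p : ℤ) ^ t * ((p : ℤ) ^ c + (p : ℤ) ^ e - 1) := by
  have h1 : IsCoprime ((p : ℤ) ^ c) ((p : ℤ) ^ e - 1) := by
    refine IsCoprime.pow_left ⟨(p : ℤ) ^ (e - 1), -1, ?_⟩
    rw [← pow_succ, Nat.sub_add_cancel he]
    ring
  have h2 : (p : ℤ) ^ c ∣ (p : ℤ) ^ ρ := h1.dvd_of_dvd_mul_right (Dvd.intro _ h)
  have h3 : p ^ c ∣ p ^ ρ := by exact_mod_cast h2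
  have h4 : c ≤ ρ := (Nat.pow_dvd_pow_iff_le_right hp.one_lt).mp h3
  obtain ⟨t, rfl⟩ := Nat.exists_eq_add_of_le h4
  refine ⟨t, rfl, ?_⟩
  have hp0 : (p : ℤ) ^ c ≠ 0 := pow_ne_zero _ (by exact_mod_cast hp.ne_zero)
  refine mul_left_cancel₀ hp0 ?_
  rw [mul_sub, sub_eq_iff_eq_add] at h
  rw [h]
  ring

/-- the arithmetic -/
theorem arith {p : ℕ} (hp : p.Prime) {n ρ ζ c b k : ℕ} (hc : 0 < c) (hb : 0 < b) (hρ : ρ < n)
    (hζ : ζ < n) (h1 : p ^ n + p ^ ρ * p ^ c = p ^ ρ + k * p ^ c)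
    (h2 : k * p ^ b + p ^ ζ = p ^ ζ * p ^ b + p ^ n) :
    (b = c ∧ ρ = ζ) ∨ (ρ + b = n ∧ ζ + c = n) := by
  obtain ⟨e, rfl⟩ := Nat.exists_eq_add_of_lt hρ
  obtain ⟨f, hf⟩ := Nat.exists_eq_add_of_lt hζ
  have h1' : (p : ℤ) ^ (ρ + e + 1) + (p : ℤ) ^ ρ * (p : ℤ) ^ c =
      (p : ℤ) ^ ρ + k * (p : ℤ) ^ c := by exact_mod_cast h1
  have h2' : (k : ℤ) * (p : ℤ) ^ b + (p : ℤ) ^ ζ =
      (p : ℤ) ^ ζ * (p : ℤ) ^ b + (p : ℤ) ^ (ρ + e + 1) := by exact_mod_cast h2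
  obtain ⟨t, ht, h3⟩ := exists_sub hp (ρ := ρ) (e := e + 1) (c := c) (k := k) (by omega)
    (by rw [add_assoc, pow_add] at h1'; linear_combination (-1 : ℤ) * h1')
  rw [hf] at h2'
  obtain ⟨s, hs, h4⟩ := exists_sub hp (ρ := ζ) (e := f + 1) (c := b) (k := k) (by omega)
    (by rw [add_assoc, pow_add] at h2'; linear_combination h2')
  have h5 : t = s := le_antisymm
    (exp_eq hp (not_dvd hp hb (by omega)) (h3.symm.trans h4))
    (exp_eq hp (not_dvd hp hc (by omega)) (h4.symm.trans h3))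
  subst h5
  have hp0 : (p : ℤ) ^ t ≠ 0 := pow_ne_zero _ (by exact_mod_cast hp.ne_zero)
  have h6 := mul_left_cancel₀ hp0 (h3.symm.trans h4)
  have h7 : (p : ℤ) ^ c * (p : ℤ) ^ (e + 1) = (p : ℤ) ^ b * (p : ℤ) ^ (f + 1) := by
    rw [← pow_add, ← pow_add]
    congr 1
    omega
  have h8 : ((p : ℤ) ^ c - (p : ℤ) ^ b) * ((p : ℤ) ^ c - (p : ℤ) ^ (f + 1)) = 0 := by
    linear_combination (p : ℤ) ^ c * h6 - h7
  have hinj : ∀ {i j : ℕ}, (p : ℤ) ^ i - (p : ℤ) ^ j = 0 → i = j := by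
    intro i j h
    have h9 : p ^ i = p ^ j := by exact_mod_cast sub_eq_zero.mp h
    exact Nat.pow_right_injective hp.two_le h9
  rcases mul_eq_zero.mp h8 with h | h
  · left
    have := hinj h
    omega
  · right
    have := hinj h
    omega

end Pool.Agent.Helper92.CD
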