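import Pool.Agent.Helper92.CD.Real

/-!
# The two families of examples
-/

set_option autoImplicit false
set_option linter.unusedSectionVars false
set_option linter.style.haveILetI false

open scoped BigOperators Classical

noncomputable section

namespace Pool.Agent.Helper92.CD

section one

variable {K W : Type} [Field K] [AddCommGroup W] (L : K →+ W)

/-- `f (x, y) (x', y') = L (x y')` -/
def f1 : (K × K) →+ (K × K) →+ W :=
  AddMonoidHom.mk' (fun v => AddMonoidHom.mk' (fun v' => L (v.1 * v'.2)) (fun s t => by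
    rw [Prod.snd_add, mul_add, map_add]))
    (fun s t => AddMonoidHom.ext fun v' => by
      change L ((s + t).1 * v'.2) = L (s.1 * v'.2) + L (t.1 * v'.2)
      rw [Prod.fst_add, add_mul, map_add])

theorem f1_apply (v v' : K × K) : f1 L v v' = L (v.1 * v'.2) := rfl

theorem surj1 (hL : Function.Surjective L) {v : K × K} (hv : v ≠ 0) (w : W) :
    ∃ v', f1 L v v' - f1 L v' v = w := by
  obtain ⟨t, rfl⟩ := hL w
  by_cases h : v.1 = 0
  · have h2 : v.2 ≠ 0 := fun h2 => hv (Prod.ext h h2)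
    refine ⟨(-(t / v.2), 0), ?_⟩
    rw [f1_apply, f1_apply]
    simp only [mul_zero, map_zero, zero_sub]
    rw [← map_neg]
    congr 1
    field_simp
  · refine ⟨(0, t / v.1), ?_⟩
    rw [f1_apply, f1_apply]
    simp only [zero_mul, map_zero, sub_zero]
    congr 1
    field_simp

end one

theorem ex1 {p a b : ℕ} [Fact p.Prime] (ha : 0 < a) (hb : 0 < b) (hba : b ≤ a) :
    ∃ (V W : Type) (_ : AddCommGroup V) (_ : AddCommGroup W) (_ : Finite V) (_ : Finite W)
      (f : V →+ V →+ W) (n m : ℕ), 0 < n ∧ 0 < m ∧ Nat.card V = p ^ n ∧ Nat.card W = p ^ m ∧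
      (∀ v : V, v ≠ 0 → Nat.card {v' : V // f v v' = f v' v} * p ^ b = Nat.card V) ∧
      (∀ N : AddSubgroup W, N ≠ ⊤ →
        Nat.card {v : V // ∀ v', f v' v - f v v' ∈ N} * p ^ (2 * a) ≤ Nat.card V) ∧
      (p ^ (2 * a) * (p ^ m * p ^ b + p ^ n * p ^ m) + p ^ b * p ^ n =
        p ^ b * (p ^ n * p ^ m) + p ^ (2 * a) * (p ^ m + p ^ n * p ^ b)) := by
  let K := GaloisField p a
  have hK : Nat.card K = p ^ a := GaloisField.card p a ha.ne'
  have i1 : Finite K := inferInstance
  have hfin : Module.finrank (ZMod p) K = a := GaloisField.finrank p ha.ne'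
  let e : K ≃ₗ[ZMod p] (Fin a → ZMod p) :=
    LinearEquiv.ofFinrankEq K (Fin a → ZMod p) (by rw [hfin, Module.finrank_fin_fun])
  let L0 : (Fin a → ZMod p) →ₗ[ZMod p] (Fin b → ZMod p) :=
    LinearMap.funLeft (ZMod p) (ZMod p) (Fin.castLE hba)
  have hL0 : Function.Surjective L0 :=
    LinearMap.funLeft_surjective_of_injective _ _ _ (Fin.castLE_injective hba)
  let L : K →+ (Fin b → ZMod p) := (L0 ∘ₗ e.toLinearMap).toAddMonoidHom
  have hL : Function.Surjective L := hL0.comp e.surjective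
  have hVc : Nat.card (K × K) = p ^ (2 * a) := by
    rw [Nat.card_prod, hK]
    ring
  have hWc : Nat.card (Fin b → ZMod p) = p ^ b := by
    rw [Nat.card_fun, Nat.card_zmod, Nat.card_eq_fintype_card, Fintype.card_fin]
  refine ⟨K × K, Fin b → ZMod p, inferInstance, inferInstance, inferInstance, inferInstance,
    f1 L, 2 * a, b, by omega, hb, hVc, hWc, ?_, ?_, by ring⟩
  · intro v hv
    let g : (K × K) →+ (Fin b → ZMod p) := f1 L v - (f1 L).flip v
    have hg : ∀ v', g v' = f1 L v v' - f1 L v' v := fun v' => rfl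
    have hgs : Function.Surjective g := fun w => by
      obtain ⟨v', hv'⟩ := surj1 L hL hv w
      exact ⟨v', hv'⟩
    have h1 := AddSubgroup.card_mul_index g.ker
    rw [AddSubgroup.index_ker, AddMonoidHom.range_eq_top.mpr hgs] at h1
    have h2 : Nat.card (⊤ : AddSubgroup (Fin b → ZMod p)) = p ^ b := by
      rw [AddSubgroup.card_top, hWc]
    rw [h2] at h1
    rw [← h1]
    congr 1
    refine Nat.card_congr (Equiv.subtypeEquivRight fun v' => ?_)
    rw [AddMonoidHom.mem_ker, hg, sub_eq_zero]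
  · intro N hN
    have h1 : ∀ v : K × K, (∀ v', f1 L v' v - f1 L v v' ∈ N) → v = 0 := by
      intro v hv
      by_contra h
      apply hN
      rw [AddSubgroup.eq_top_iff']
      intro w
      obtain ⟨v', hv'⟩ := surj1 L hL h (-w)
      have h2 := hv v'
      have h3 : f1 L v' v - f1 L v v' = w := by
        rw [← neg_sub, hv', neg_neg]
      rwa [h3] at h2
    have h2 : Nat.card {v : K × K // ∀ v', f1 L v' v - f1 L v v' ∈ N} ≤ 1 := by
      have : Subsingleton {v : K × K // ∀ v', f1 L v' v - f1 L v v' ∈ N} :=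
        ⟨fun x y => Subtype.ext ((h1 x.1 x.2).trans (h1 y.1 y.2).symm)⟩
      exact Finite.card_le_one_iff_subsingleton.mpr this
    rw [hVc]
    calc _ ≤ 1 * p ^ (2 * a) := Nat.mul_le_mul_right _ h2
      _ = p ^ (2 * a) := one_mul _

section two

variable {K : Type} [Field K]

/-- half of the cross product -/
def f2 : (Fin 3 → K) →+ (Fin 3 → K) →+ (Fin 3 → K) :=
  AddMonoidHom.mk' (fun v => AddMonoidHom.mk' (fun v' => ![v 1 * v' 2, v 2 * v' 0, v 0 * v' 1])
    (fun s t => by
      ext i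
      fin_cases i <;> simp [mul_add]))
    (fun s t => AddMonoidHom.ext fun v' => by
      ext i
      fin_cases i <;> simp [add_mul])

theorem f2_0 (v v' : Fin 3 → K) : f2 v v' 0 = v 1 * v' 2 := rfl
theorem f2_1 (v v' : Fin 3 → K) : f2 v v' 1 = v 2 * v' 0 := rfl
theorem f2_2 (v v' : Fin 3 → K) : f2 v v' 2 = v 0 * v' 1 := rfl

theorem f2_eq {v v' : Fin 3 → K} : f2 v v' = f2 v' v ↔ v 1 * v' 2 = v' 1 * v 2 ∧
    v 2 * v' 0 = v' 2 * v 0 ∧ v 0 * v' 1 = v' 0 * v 1 := by
  constructor
  · intro h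
    exact ⟨congrFun h 0, congrFun h 1, congrFun h 2⟩
  · rintro ⟨h1, h2, h3⟩
    ext i
    fin_cases i
    · exact h1
    · exact h2
    · exact h3

theorem line {v : Fin 3 → K} (hv : v ≠ 0) {v' : Fin 3 → K} (h : f2 v v' = f2 v' v) :
    ∃ c : K, v' = c • v := by
  obtain ⟨h1, h2, h3⟩ := f2_eq.mp h
  have h4 : v 0 ≠ 0 ∨ v 1 ≠ 0 ∨ v 2 ≠ 0 := by
    by_contra hcon
    push Not at hcon
    obtain ⟨h5, h6, h7⟩ := hcon
    apply hv
    ext i
    fin_cases i
    · exact h5
    · exact h6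
    · exact h7
  rcases h4 with h5 | h5 | h5
  · refine ⟨v' 0 / v 0, ?_⟩
    ext i
    fin_cases i
    · change v' 0 = v' 0 / v 0 * v 0
      field_simp
    · change v' 1 = v' 0 / v 0 * v 1
      field_simp
      linear_combination h3
    · change v' 2 = v' 0 / v 0 * v 2
      field_simp
      linear_combination -h2
  · refine ⟨v' 1 / v 1, ?_⟩
    ext i
    fin_cases i
    · change v' 0 = v' 1 / v 1 * v 0
      field_simp
      linear_combination -h3
    · change v' 1 = v' 1 / v 1 * v 1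
      field_simp
    · change v' 2 = v' 1 / v 1 * v 2
      field_simp
      linear_combination h1
  · refine ⟨v' 2 / v 2, ?_⟩
    ext i
    fin_cases i
    · change v' 0 = v' 2 / v 2 * v 0
      field_simp
      linear_combination h2
    · change v' 1 = v' 2 / v 2 * v 1
      field_simp
      linear_combination -h1
    · change v' 2 = v' 2 / v 2 * v 2
      field_simp

theorem card_line {v : Fin 3 → K} (hv : v ≠ 0) :
    Nat.card {v' : Fin 3 → K // f2 v v' = f2 v' v} = Nat.card K := by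
  refine (Nat.card_congr (Equiv.ofBijective
    (fun c : K => (⟨c • v, ?_⟩ : {v' : Fin 3 → K // f2 v v' = f2 v' v})) ⟨?_, ?_⟩)).symm
  · rw [f2_eq]
    simp only [Pi.smul_apply, smul_eq_mul]
    exact ⟨by ring, by ring, by ring⟩
  · intro c d h
    have h1 : c • v = d • v := congrArg Subtype.val h
    exact smul_left_injective K hv h1
  · rintro ⟨v', h⟩
    obtain ⟨c, rfl⟩ := line hv h
    exact ⟨c, rfl⟩

theorem span {u v : Fin 3 → K} (h : f2 u v ≠ f2 v u) (w : Fin 3 → K) :
    ∃ x y : Fin 3 → K, (f2 x u - f2 u x) + (f2 y v - f2 v y) = w := by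
  have h1 : u 1 * v 2 - v 1 * u 2 ≠ 0 ∨ u 2 * v 0 - v 2 * u 0 ≠ 0 ∨
      u 0 * v 1 - v 0 * u 1 ≠ 0 := by
    by_contra hcon
    push Not at hcon
    obtain ⟨h5, h6, h7⟩ := hcon
    exact h (f2_eq.mpr ⟨sub_eq_zero.mp h5, sub_eq_zero.mp h6, sub_eq_zero.mp h7⟩)
  rcases h1 with h1 | h1 | h1
  · set n0 := u 1 * v 2 - v 1 * u 2 with hn0
    set n1 := u 2 * v 0 - v 2 * u 0 with hn1
    set n2 := u 0 * v 1 - v 0 * u 1 with hn2
    let r1 := w 1 - w 0 * n1 / n0
    let r2 := w 2 - w 0 * n2 / n0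
    refine ⟨![-(w 0 / n0) * v 0 + (r1 * v 1 + r2 * v 2) / n0, -(w 0 / n0) * v 1,
      -(w 0 / n0) * v 2], ![-((r1 * u 1 + r2 * u 2) / n0), 0, 0], ?_⟩
    ext i
    fin_cases i
    · simp [f2, r1, r2]
      field_simp
      rw [hn0]
      ring
    · simp [f2, r1, r2]
      field_simp
      rw [hn0, hn1, hn2]
      ring
    · simp [f2, r1, r2]
      field_simp
      rw [hn0, hn1, hn2]
      ring
  · set n0 := u 1 * v 2 - v 1 * u 2 with hn0
    set n1 := u 2 * v 0 - v 2 * u 0 with hn1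
    set n2 := u 0 * v 1 - v 0 * u 1 with hn2
    let r0 := w 0 - w 1 * n0 / n1
    let r2 := w 2 - w 1 * n2 / n1
    refine ⟨![-(w 1 / n1) * v 0, -(w 1 / n1) * v 1 + (r0 * v 0 + r2 * v 2) / n1,
      -(w 1 / n1) * v 2], ![0, -((r0 * u 0 + r2 * u 2) / n1), 0], ?_⟩
    ext i
    fin_cases i
    · simp [f2, r0, r2]
      field_simp
      rw [hn0, hn1, hn2]
      ring
    · simp [f2, r0, r2]
      field_simp
      rw [hn1]
      ring
    · simp [f2, r0, r2]
      field_simp
      rw [hn0, hn1, hn2]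
      ring
  · set n0 := u 1 * v 2 - v 1 * u 2 with hn0
    set n1 := u 2 * v 0 - v 2 * u 0 with hn1
    set n2 := u 0 * v 1 - v 0 * u 1 with hn2
    let r0 := w 0 - w 2 * n0 / n2
    let r1 := w 1 - w 2 * n1 / n2
    refine ⟨![-(w 2 / n2) * v 0, -(w 2 / n2) * v 1,
      -(w 2 / n2) * v 2 + (r0 * v 0 + r1 * v 1) / n2], ![0, 0, -((r0 * u 0 + r1 * u 1) / n2)], ?_⟩
    ext i
    fin_cases i
    · simp [f2, r0, r1]
      field_simp
      rw [hn0, hn1, hn2]
      ring
    · simp [f2, r0, r1]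
      field_simp
      rw [hn0, hn1, hn2]
      ring
    · simp [f2, r0, r1]
      field_simp
      rw [hn2]
      ring

end two

theorem ex2 {p a b : ℕ} [Fact p.Prime] (ha : 0 < a) (hba : b = 2 * a) :
    ∃ (V W : Type) (_ : AddCommGroup V) (_ : AddCommGroup W) (_ : Finite V) (_ : Finite W)
      (f : V →+ V →+ W) (n m : ℕ), 0 < n ∧ 0 < m ∧ Nat.card V = p ^ n ∧ Nat.card W = p ^ m ∧
      (∀ v : V, v ≠ 0 → Nat.card {v' : V // f v v' = f v' v} * p ^ b = Nat.card V) ∧
      (∀ N : AddSubgroup W, N ≠ ⊤ →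
        Nat.card {v : V // ∀ v', f v' v - f v v' ∈ N} * p ^ (2 * a) ≤ Nat.card V) ∧
      (p ^ (2 * a) * (p ^ m * p ^ b + p ^ n * p ^ m) + p ^ b * p ^ n =
        p ^ b * (p ^ n * p ^ m) + p ^ (2 * a) * (p ^ m + p ^ n * p ^ b)) := by
  subst hba
  let K := GaloisField p a
  have hK : Nat.card K = p ^ a := GaloisField.card p a ha.ne'
  have i1 : Finite K := inferInstance
  have hVc : Nat.card (Fin 3 → K) = p ^ (3 * a) := by
    rw [Nat.card_fun, hK, Nat.card_eq_fintype_card, Fintype.card_fin]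
    ring
  refine ⟨Fin 3 → K, Fin 3 → K, inferInstance, inferInstance, inferInstance, inferInstance,
    f2, 3 * a, 3 * a, by omega, by omega, hVc, hVc, ?_, ?_, by ring⟩
  · intro v hv
    rw [card_line hv, hK, hVc]
    ring
  · intro N hN
    have h1 : Nat.card {v : Fin 3 → K // ∀ v', f2 v' v - f2 v v' ∈ N} ≤ p ^ a := by
      by_cases h : ∃ u : Fin 3 → K, u ≠ 0 ∧ ∀ v', f2 v' u - f2 u v' ∈ N
      · obtain ⟨u, hu, hu2⟩ := h
        rw [← hK, ← card_line hu]
        refine Nat.card_le_card_of_injective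
          (fun v : {v : Fin 3 → K // ∀ v', f2 v' v - f2 v v' ∈ N} =>
            (⟨v.1, ?_⟩ : {v' : Fin 3 → K // f2 u v' = f2 v' u})) ?_
        · by_contra hne
          apply hN
          rw [AddSubgroup.eq_top_iff']
          intro w
          obtain ⟨x, y, hxy⟩ := span hne w
          rw [← hxy]
          exact add_mem (hu2 x) (v.2 y)
        · intro v v' h
          have h3 : v.1 = v'.1 :=
            congrArg (fun z : {v' : Fin 3 → K // f2 u v' = f2 v' u} => z.1) h
          exact Subtype.ext h3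
      · push Not at h
        have : Subsingleton {v : Fin 3 → K // ∀ v', f2 v' v - f2 v v' ∈ N} := by
          have h2 : ∀ v : {v : Fin 3 → K // ∀ v', f2 v' v - f2 v v' ∈ N}, v.1 = 0 := by
            intro v
            by_contra hv
            obtain ⟨v', hv'⟩ := h v.1 hv
            exact hv' (v.2 v')
          exact ⟨fun x y => Subtype.ext ((h2 x).trans (h2 y).symm)⟩
        exact (Finite.card_le_one_iff_subsingleton.mpr this).trans
          (Nat.one_le_pow _ _ (Fact.out : p.Prime).pos)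
    calc _ ≤ p ^ a * p ^ (2 * a) := Nat.mul_le_mul_right _ h1
      _ = Nat.card (Fin 3 → K) := by
        rw [hVc]
        ring

end Pool.Agent.Helper92.CD
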