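import Pool.Agent.Helper92.CD.Alt

/-!
# Groups all of whose noncentral classes are cosets of the derived subgroup
-/

set_option autoImplicit false

open scoped BigOperators Classical commutatorElement

noncomputable section

namespace Pool.Agent.Helper92.CD

variable {P : Type} [Group P]

theorem cmem (x y : P) : ⁅x, y⁆ ∈ commutator P :=
  Subgroup.commutator_mem_commutator (Subgroup.mem_top _) (Subgroup.mem_top _)

theorem cml (hZ : commutator P ≤ Subgroup.center P) (x y w : P) :
    ⁅x * y, w⁆ = ⁅x, w⁆ * ⁅y, w⁆ := by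
  have h := Subgroup.mem_center_iff.mp (hZ (cmem y w))
  calc ⁅x * y, w⁆ = x * ⁅y, w⁆ * (w * x⁻¹ * w⁻¹) := by
        simp only [commutatorElement_def]
        group
    _ = ⁅y, w⁆ * x * (w * x⁻¹ * w⁻¹) := by rw [h x]
    _ = ⁅y, w⁆ * ⁅x, w⁆ := by
        simp only [commutatorElement_def]
        group
    _ = ⁅x, w⁆ * ⁅y, w⁆ := (h _).symm

theorem cmr (hZ : commutator P ≤ Subgroup.center P) (x y w : P) :
    ⁅x, y * w⁆ = ⁅x, y⁆ * ⁅x, w⁆ := by
  rw [← commutatorElement_inv, cml hZ, mul_inv_rev, commutatorElement_inv, commutatorElement_inv]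
  exact Subgroup.mem_center_iff.mp (hZ (cmem x y)) _

theorem cpow (hZ : commutator P ≤ Subgroup.center P) (x y : P) (n : ℕ) :
    ⁅x ^ n, y⁆ = ⁅x, y⁆ ^ n := by
  induction n with
  | zero => simp [commutatorElement_def]
  | succ n ih => rw [pow_succ, cml hZ, ih, pow_succ]

theorem ccl {z : P} (hz : z ∈ Subgroup.center P) (y : P) : ⁅z, y⁆ = 1 := by
  rw [commutatorElement_eq_one_iff_mul_comm]
  exact (Subgroup.mem_center_iff.mp hz y).symm

theorem ccr {z : P} (hz : z ∈ Subgroup.center P) (y : P) : ⁅y, z⁆ = 1 := by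
  rw [commutatorElement_eq_one_iff_mul_comm]
  exact Subgroup.mem_center_iff.mp hz y

/-- the pairing -/
def B (q r : P ⧸ Subgroup.center P) : commutator P := ⟨⁅q.out, r.out⁆, cmem _ _⟩

theorem B_mk (hZ : commutator P ≤ Subgroup.center P) (x y : P) :
    B (x : P ⧸ Subgroup.center P) (y : P ⧸ Subgroup.center P) = ⟨⁅x, y⁆, cmem _ _⟩ := by
  refine Subtype.ext ?_
  change ⁅(x : P ⧸ Subgroup.center P).out, (y : P ⧸ Subgroup.center P).out⁆ = ⁅x, y⁆
  obtain ⟨z, hz⟩ := QuotientGroup.mk_out_eq_mul (Subgroup.center P) x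
  obtain ⟨w, hw⟩ := QuotientGroup.mk_out_eq_mul (Subgroup.center P) y
  rw [hz, hw, cml hZ, ccl z.2, mul_one, cmr hZ, ccr w.2, mul_one]

theorem bound_grp {p a b : ℕ} (hp : p.Prime) [Finite P] (ha : 0 < a) (hb : 0 < b)
    (hZ : commutator P ≤ Subgroup.center P) (hc : Nat.card (commutator P) = p ^ b)
    (hi : (Subgroup.center P).index = p ^ (2 * a))
    (hcl : ∀ x : P, x ∉ Subgroup.center P → ∀ c ∈ commutator P, ∃ y : P, y * x * y⁻¹ = x * c) :
    b ≤ a := by
  have : Fact p.Prime := ⟨hp⟩
  have hs : ∀ x : P, x ∉ Subgroup.center P → ∀ c ∈ commutator P, ∃ y : P, ⁅x, y⁆ = c := by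
    intro x hx c hc
    obtain ⟨y, hy⟩ := hcl x⁻¹ (fun h => hx (by simpa using h)) c hc
    refine ⟨y, ?_⟩
    calc ⁅x, y⁆ = x * (y * x⁻¹ * y⁻¹) := by
          simp only [commutatorElement_def]
          group
      _ = c := by
          rw [hy]
          group
  have hxp : ∀ x : P, x ^ p ∈ Subgroup.center P := by
    intro x
    by_contra h
    have hsurj : Function.Surjective fun c : commutator P => c ^ p := by
      rintro ⟨c, hc⟩
      obtain ⟨y, hy⟩ := hs _ h c hc
      refine ⟨⟨⁅x, y⁆, cmem _ _⟩, Subtype.ext ?_⟩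
      change ⁅x, y⁆ ^ p = c
      rw [← cpow hZ, hy]
    have hinj := Finite.injective_iff_surjective.mpr hsurj
    have hdvd : p ∣ Nat.card (commutator P) := by
      rw [hc]
      exact dvd_pow_self p hb.ne'
    obtain ⟨c, hc1⟩ := exists_prime_orderOf_dvd_card' p hdvd
    have h1 : c ^ p = (1 : commutator P) ^ p := by
      rw [← hc1, pow_orderOf_eq_one, one_pow]
    have h2 := hinj h1
    rw [h2, orderOf_one] at hc1
    exact hp.one_lt.ne hc1
  obtain ⟨x0, hx0⟩ : ∃ x : P, x ∉ Subgroup.center P := by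
    by_contra h
    push Not at h
    have h1 : (Subgroup.center P).index = 1 := by
      rw [Subgroup.index_eq_one, Subgroup.eq_top_iff']
      exact h
    rw [h1] at hi
    exact (Nat.one_lt_pow (by omega) hp.one_lt).ne hi
  have hcp : ∀ c ∈ commutator P, c ^ p = 1 := by
    intro c hc
    obtain ⟨y, rfl⟩ := hs x0 hx0 c hc
    rw [← cpow hZ, ccl (hxp x0)]
  letI i1 : CommGroup (P ⧸ Subgroup.center P) :=
    { (inferInstance : Group (P ⧸ Subgroup.center P)) with
      mul_comm := by
        intro q r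
        induction q using QuotientGroup.induction_on with
        | H x =>
          induction r using QuotientGroup.induction_on with
          | H y =>
            change ((x * y : P) : P ⧸ Subgroup.center P) = ((y * x : P) : P ⧸ Subgroup.center P)
            rw [QuotientGroup.eq]
            have h1 : (x * y)⁻¹ * (y * x) = ⁅y⁻¹, x⁻¹⁆ := by
              simp only [commutatorElement_def]
              group
            rw [h1]
            exact hZ (cmem _ _) }
  letI i2 : CommGroup (commutator P) :=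
    { (inferInstance : Group (commutator P)) with
      mul_comm := by
        intro q r
        refine Subtype.ext ?_
        exact (Subgroup.mem_center_iff.mp (hZ r.2) q.1) }
  have hV0 : ∀ q : Additive (P ⧸ Subgroup.center P), p • q = 0 := by
    intro q
    obtain ⟨x, hx⟩ := QuotientGroup.mk_surjective q.toMul
    have h1 : (q.toMul) ^ p = 1 := by
      rw [← hx, ← QuotientGroup.mk_pow, QuotientGroup.eq_one_iff]
      exact hxp x
    exact h1
  have hW0 : ∀ q : Additive (commutator P), p • q = 0 := by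
    intro q
    have h1 : (q.toMul) ^ p = 1 := Subtype.ext (hcp _ q.toMul.2)
    exact h1
  letI m1 : Module (ZMod p) (Additive (P ⧸ Subgroup.center P)) :=
    AddCommGroup.zmodModule hV0
  letI m2 : Module (ZMod p) (Additive (commutator P)) := AddCommGroup.zmodModule hW0
  have hB1 : ∀ q r s : P ⧸ Subgroup.center P, B (q * r) s = B q s * B r s := by
    intro q r s
    obtain ⟨x, rfl⟩ := QuotientGroup.mk_surjective q
    obtain ⟨y, rfl⟩ := QuotientGroup.mk_surjective r
    obtain ⟨w, rfl⟩ := QuotientGroup.mk_surjective s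
    rw [← QuotientGroup.mk_mul, B_mk hZ, B_mk hZ, B_mk hZ]
    exact Subtype.ext (cml hZ x y w)
  have hB2 : ∀ q r s : P ⧸ Subgroup.center P, B q (r * s) = B q r * B q s := by
    intro q r s
    obtain ⟨x, rfl⟩ := QuotientGroup.mk_surjective q
    obtain ⟨y, rfl⟩ := QuotientGroup.mk_surjective r
    obtain ⟨w, rfl⟩ := QuotientGroup.mk_surjective s
    rw [← QuotientGroup.mk_mul, B_mk hZ, B_mk hZ, B_mk hZ]
    exact Subtype.ext (cmr hZ x y w)
  let β : Additive (P ⧸ Subgroup.center P) →+ Additive (P ⧸ Subgroup.center P) →+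
      Additive (commutator P) :=
    AddMonoidHom.mk' (fun q => AddMonoidHom.mk'
      (fun r => Additive.ofMul (B q.toMul r.toMul)) (fun r s => congrArg Additive.ofMul
        (hB2 q.toMul r.toMul s.toMul)))
      (fun q r => AddMonoidHom.ext fun s => congrArg Additive.ofMul
        (hB1 q.toMul r.toMul s.toMul))
  refine bound (p := p) ha β ?_ ?_ ?_ ?_
  · intro q
    obtain ⟨x, hx⟩ := QuotientGroup.mk_surjective q.toMul
    change Additive.ofMul (B q.toMul q.toMul) = 0
    rw [← hx, B_mk hZ]
    have h1 : (⟨⁅x, x⁆, cmem x x⟩ : commutator P) = 1 :=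
      Subtype.ext (commutatorElement_self x)
    rw [h1]
    rfl
  · exact hi
  · exact hc
  · intro q hq w
    obtain ⟨x, hx⟩ := QuotientGroup.mk_surjective q.toMul
    have hxz : x ∉ Subgroup.center P := by
      intro h
      apply hq
      have h1 : q.toMul = 1 := by
        rw [← hx, QuotientGroup.eq_one_iff]
        exact h
      exact h1
    obtain ⟨y, hy⟩ := hs x hxz w.toMul.1 w.toMul.2
    refine ⟨Additive.ofMul (y : P ⧸ Subgroup.center P), ?_⟩
    change Additive.ofMul (B q.toMul (y : P ⧸ Subgroup.center P)) = w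
    rw [← hx, B_mk hZ]
    have h1 : (⟨⁅x, y⁆, cmem x y⟩ : commutator P) = w.toMul := Subtype.ext hy
    rw [h1]
    rfl

end Pool.Agent.Helper92.CD
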