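import Pool.Agent.Helper92.CD.Main

/-!
# Groups of class two from biadditive maps
-/

set_option autoImplicit false
set_option linter.unusedSectionVars false
set_option linter.style.haveILetI false

open scoped BigOperators Classical commutatorElement

noncomputable section

namespace Pool.Agent.Helper92.CD

open Pool.Agent.Helper884 Pool.Agent.H254R3.IN
open Pool.Agent.K3h3.MK Pool.Agent.K3h3.KB
open IC (Irr)

/-- the group on `V × W` with `(v, w) (v', w') = (v + v', w + w' + f v v')` -/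
@[ext]
structure HG {V W : Type} [AddCommGroup V] [AddCommGroup W] (f : V →+ V →+ W) : Type where
  v : V
  w : W

variable {V W : Type} [AddCommGroup V] [AddCommGroup W] {f : V →+ V →+ W}

instance : Mul (HG f) := ⟨fun x y => ⟨x.v + y.v, x.w + y.w + f x.v y.v⟩⟩
instance : One (HG f) := ⟨⟨0, 0⟩⟩
instance : Inv (HG f) := ⟨fun x => ⟨-x.v, -x.w + f x.v x.v⟩⟩

theorem mul_v (x y : HG f) : (x * y).v = x.v + y.v := rfl
theorem mul_w (x y : HG f) : (x * y).w = x.w + y.w + f x.v y.v := rfl
theorem one_v : (1 : HG f).v = 0 := rfl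
theorem one_w : (1 : HG f).w = 0 := rfl
theorem inv_v (x : HG f) : (x⁻¹).v = -x.v := rfl
theorem inv_w (x : HG f) : (x⁻¹).w = -x.w + f x.v x.v := rfl

instance : Group (HG f) :=
  Group.ofLeftAxioms
    (fun x y z => by
      ext
      · simp only [mul_v]
        abel
      · simp only [mul_v, mul_w, map_add, AddMonoidHom.add_apply]
        abel)
    (fun x => by
      ext
      · simp only [mul_v, one_v, zero_add]
      · simp only [mul_w, one_v, one_w, map_zero, AddMonoidHom.zero_apply, zero_add, add_zero])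
    (fun x => by
      ext
      · simp only [mul_v, inv_v, one_v, neg_add_cancel]
      · simp only [mul_w, inv_v, inv_w, one_w, map_neg, AddMonoidHom.neg_apply]
        abel)

/-- the underlying set -/
def eqv : HG f ≃ V × W := ⟨fun x => (x.v, x.w), fun q => ⟨q.1, q.2⟩, fun _ => rfl, fun _ => rfl⟩

instance [Finite V] [Finite W] : Finite (HG f) := Finite.of_equiv _ eqv.symm

theorem card_HG : Nat.card (HG f) = Nat.card V * Nat.card W := by
  rw [Nat.card_congr eqv, Nat.card_prod]

/-- the central elements -/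
def zz (f : V →+ V →+ W) (w : W) : HG f := ⟨0, w⟩

theorem zz_comm (w : W) (x : HG f) : zz f w * x = x * zz f w := by
  ext
  · simp only [mul_v, zz]
    abel
  · simp only [mul_w, zz, map_zero, AddMonoidHom.zero_apply]
    abel

theorem mul_eq (y g : HG f) : y * g = zz f (f y.v g.v - f g.v y.v) * (g * y) := by
  ext
  · simp only [mul_v, zz]
    abel
  · simp only [mul_w, mul_v, zz, map_zero, AddMonoidHom.zero_apply]
    abel

theorem zz_add (w w' : W) : zz f (w + w') = zz f w * zz f w' := by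
  ext
  · simp only [mul_v, zz]
    abel
  · simp only [mul_w, zz, map_zero, add_zero]

theorem zz_zero : zz f 0 = 1 := rfl

theorem deg_lemma [Finite V] [Finite W] {χ : HG f → ℂ} (hχ : IsIrr χ) :
    ∃ N : AddSubgroup W, ndeg χ ^ 2 * Nat.card {v : V // ∀ v', f v' v - f v v' ∈ N} =
      Nat.card V := by
  have : Fintype (HG f) := Fintype.ofFinite _
  have hB : ∑ a : HG f, χ a * χ a⁻¹ = (Nat.card (HG f) : ℂ) := by
    have h3 := IC.B_irr hχ hχ
    rw [if_pos rfl] at h3
    unfold IC.B at h3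
    have h4 : (Nat.card (HG f) : ℂ) ≠ 0 := IC.cardG_ne
    field_simp at h3
    exact h3
  have hcast := ndeg_cast hχ
  obtain ⟨U, i1, i2, i3, ρ, hρ, hχρ⟩ := id hχ
  have hd : (ndeg χ : ℂ) = (Module.finrank ℂ U : ℂ) := by
    rw [hcast, hχρ, Representation.char_one]
  have htr : ∀ (g : HG f) (c : ℂ), ρ g = c • LinearMap.id → χ g = c * ndeg χ := by
    intro g c h
    rw [hd, hχρ]
    change LinearMap.trace ℂ U (ρ g) = _
    rw [h, map_smul, LinearMap.trace_id, smul_eq_mul]
  let N : AddSubgroup W :=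
    { carrier := {w | ρ (zz f w) = 1}
      zero_mem' := by
        change ρ (zz f 0) = 1
        rw [zz_zero, map_one]
      add_mem' := by
        intro w w' h h'
        change ρ (zz f (w + w')) = 1
        rw [zz_add, map_mul, h, h', one_mul]
      neg_mem' := by
        intro w h
        change ρ (zz f (-w)) = 1
        have h1 : zz f (-w) * zz f w = 1 := by
          rw [← zz_add, neg_add_cancel, zz_zero]
        have h2 : ρ (zz f (-w)) * ρ (zz f w) = 1 := by
          rw [← map_mul, h1, map_one]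
        rw [h, mul_one] at h2
        exact h2 }
  have hN : ∀ w, w ∈ N ↔ ρ (zz f w) = 1 := fun w => Iff.rfl
  refine ⟨N, ?_⟩
  have hin : ∀ g : HG f, (∀ v', f v' g.v - f g.v v' ∈ N) → χ g * χ g⁻¹ = (ndeg χ : ℂ) ^ 2 := by
    intro g hg
    obtain ⟨c, hc⟩ := schur ρ hρ (ρ g) (fun h v => by
      have h1 : ρ h * ρ g = ρ g * ρ h := by
        rw [← map_mul, mul_eq h g, map_mul, (hN _).mp (hg h.v), one_mul, map_mul]
      exact (LinearMap.congr_fun h1 v).symm)
    obtain ⟨d, hd⟩ := schur ρ hρ (ρ g⁻¹) (fun h v => by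
      have h1 : ρ h * ρ g = ρ g * ρ h := by
        rw [← map_mul, mul_eq h g, map_mul, (hN _).mp (hg h.v), one_mul, map_mul]
      have h2 : ρ g⁻¹ * ρ g = 1 := by rw [← map_mul, inv_mul_cancel, map_one]
      have h3 : ρ g * ρ g⁻¹ = 1 := by rw [← map_mul, mul_inv_cancel, map_one]
      have h4 : ρ g⁻¹ * ρ h = ρ h * ρ g⁻¹ := by
        calc ρ g⁻¹ * ρ h = ρ g⁻¹ * ρ h * (ρ g * ρ g⁻¹) := by rw [h3, mul_one]
          _ = ρ g⁻¹ * (ρ h * ρ g) * ρ g⁻¹ := by simp only [mul_assoc]
          _ = ρ g⁻¹ * ρ g * ρ h * ρ g⁻¹ := by rw [h1]; simp only [mul_assoc]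
          _ = ρ h * ρ g⁻¹ := by rw [h2, one_mul]
      exact LinearMap.congr_fun h4 v)
    have hU : Nontrivial U := irr_nontrivial ρ hρ
    obtain ⟨u, hu⟩ := exists_ne (0 : U)
    have hcd : c * d = 1 := by
      have h1 : (ρ g * ρ g⁻¹) u = u := by
        rw [← map_mul, mul_inv_cancel, map_one]
        rfl
      rw [hc, hd] at h1
      change c • (d • u) = u at h1
      rw [smul_smul] at h1
      have h2 : (c * d - 1) • u = 0 := by
        rw [sub_smul, h1, one_smul, sub_self]
      rcases smul_eq_zero.mp h2 with h3 | h3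
      · exact sub_eq_zero.mp h3
      · exact absurd h3 hu
    rw [htr g c hc, htr g⁻¹ d hd]
    calc c * (ndeg χ : ℂ) * (d * ndeg χ) = (c * d) * (ndeg χ : ℂ) ^ 2 := by ring
      _ = (ndeg χ : ℂ) ^ 2 := by rw [hcd, one_mul]
  have hout : ∀ g : HG f, ¬ (∀ v', f v' g.v - f g.v v' ∈ N) → χ g * χ g⁻¹ = 0 := by
    intro g hg
    push Not at hg
    obtain ⟨v', hv'⟩ := hg
    obtain ⟨c, hc⟩ := schur ρ hρ (ρ (zz f (f v' g.v - f g.v v'))) (fun h v => by
      have h1 : ρ (zz f (f v' g.v - f g.v v')) * ρ h = ρ h * ρ (zz f (f v' g.v - f g.v v')) := by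
        rw [← map_mul, zz_comm, map_mul]
      exact LinearMap.congr_fun h1 v)
    have hc1 : c ≠ 1 := by
      rintro rfl
      apply hv'
      rw [hN, hc, one_smul]
      rfl
    have h3 : (⟨v', 0⟩ : HG f) * g * (⟨v', 0⟩ : HG f)⁻¹ = zz f (f v' g.v - f g.v v') * g := by
      rw [mul_eq ⟨v', 0⟩ g, mul_assoc, mul_assoc, mul_inv_cancel, mul_one]
    have h4 : χ (zz f (f v' g.v - f g.v v') * g) = c * χ g := by
      rw [hχρ]
      change LinearMap.trace ℂ U (ρ (zz f (f v' g.v - f g.v v') * g)) =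
        c * LinearMap.trace ℂ U (ρ g)
      rw [map_mul, hc, smul_mul_assoc, map_smul, smul_eq_mul]
      congr 2
    have h1 : χ g = c * χ g := by
      calc χ g = χ ((⟨v', 0⟩ : HG f) * g * (⟨v', 0⟩ : HG f)⁻¹) := (hχ.conj g ⟨v', 0⟩).symm
        _ = χ (zz f (f v' g.v - f g.v v') * g) := by rw [h3]
        _ = c * χ g := h4
    have h2 : (c - 1) * χ g = 0 := by linear_combination -h1
    rcases mul_eq_zero.mp h2 with h3 | h3
    · exact absurd (sub_eq_zero.mp h3) hc1
    · rw [h3, zero_mul]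
  have hsum : ∑ g : HG f, χ g * χ g⁻¹ = ∑ g : HG f,
      if (∀ v', f v' g.v - f g.v v' ∈ N) then (ndeg χ : ℂ) ^ 2 else 0 := by
    refine Finset.sum_congr rfl fun g _ => ?_
    split_ifs with h
    · exact hin g h
    · exact hout g h
  rw [hB, ← Finset.sum_filter, Finset.sum_const, nsmul_eq_mul] at hsum
  have hcard : (Finset.univ.filter fun g : HG f => ∀ v', f v' g.v - f g.v v' ∈ N).card =
      Nat.card {v : V // ∀ v', f v' v - f v v' ∈ N} * Nat.card W := by
    rw [← Nat.card_prod, ← Fintype.card_subtype, ← Nat.card_eq_fintype_card]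
    exact Nat.card_congr ⟨fun g => (⟨g.1.v, g.2⟩, g.1.w), fun q => ⟨⟨q.1.1, q.2⟩, q.1.2⟩,
      fun _ => rfl, fun _ => rfl⟩
  rw [hcard, card_HG] at hsum
  have h5 : Nat.card V * Nat.card W =
      Nat.card {v : V // ∀ v', f v' v - f v v' ∈ N} * Nat.card W * ndeg χ ^ 2 := by
    exact_mod_cast hsum
  have h6 : 0 < Nat.card W := Nat.card_pos
  refine Nat.eq_of_mul_eq_mul_right h6 ?_
  rw [h5]
  ring

end Pool.Agent.Helper92.CD
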