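import Pool.Agent.Helper92.CD.Count

/-!
# Groups with two character degrees and two class sizes
-/

set_option autoImplicit false
set_option linter.unusedSectionVars false
set_option linter.style.haveILetI false

open scoped BigOperators Classical commutatorElement

noncomputable section

namespace Pool.Agent.Helper92.CD

open Pool.Agent.Helper884 Pool.Agent.H254R3.IN
open Pool.Agent.K3h3.MK Pool.Agent.K3h3.KB
open IC (Irr)

variable {P : Type} [Group P] [Fintype P]

theorem eq_one {d c l : ℕ} (hdeg : ∀ χ ∈ Irr P, ndeg χ = 1 ∨ ndeg χ = d)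
    (hc : c = d ^ 2) (hl : (commutator P).index = l) :
    Nat.card P + l * c = l + (Irr P).card * c := by
  have h1 := sum_sq (G := P)
  rw [← Finset.sum_filter_add_sum_filter_not (Irr P) (fun χ => ndeg χ = 1)] at h1
  have h2 : ∑ χ ∈ (Irr P).filter (fun χ => ndeg χ = 1), ndeg χ ^ 2 = l := by
    rw [Finset.sum_congr rfl (g := fun _ => 1) fun χ hχ => by
      rw [(Finset.mem_filter.mp hχ).2, one_pow]]
    rw [Finset.sum_const, smul_eq_mul, mul_one, card_lin, hl]
  have h3 : ∑ χ ∈ (Irr P).filter (fun χ => ¬ ndeg χ = 1), ndeg χ ^ 2 =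
      ((Irr P).filter (fun χ => ¬ ndeg χ = 1)).card * c := by
    rw [Finset.sum_congr rfl (g := fun _ => c) fun χ hχ => by
      obtain ⟨h4, h5⟩ := Finset.mem_filter.mp hχ
      rw [(hdeg χ h4).resolve_left h5, hc]]
    rw [Finset.sum_const, smul_eq_mul]
  have h4 := Finset.card_filter_add_card_filter_not (s := Irr P) (fun χ => ndeg χ = 1)
  rw [card_lin, hl] at h4
  rw [← h1, h2, h3, ← h4]
  ring

theorem mem_center_iff_index {x : P} :
    (Subgroup.centralizer ({x} : Set P)).index = 1 ↔ x ∈ Subgroup.center P := by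
  rw [Subgroup.index_eq_one, Subgroup.eq_top_iff']
  constructor
  · intro h
    rw [Subgroup.mem_center_iff]
    intro g
    exact (Subgroup.mem_centralizer_singleton_iff.mp (h g))
  · intro h g
    exact Subgroup.mem_centralizer_singleton_iff.mpr (Subgroup.mem_center_iff.mp h g)

theorem eq_two {m : ℕ}
    (hcs : ∀ x : P, (Subgroup.centralizer ({x} : Set P)).index = 1 ∨
      (Subgroup.centralizer ({x} : Set P)).index = m) :
    (Irr P).card * m + Nat.card (Subgroup.center P) =
      Nat.card (Subgroup.center P) * m + Nat.card P := by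
  have h1 : ∀ x : P, Nat.card (Subgroup.centralizer ({x} : Set P)) * m =
      if x ∈ Subgroup.center P then Nat.card P * m else Nat.card P := by
    intro x
    have h2 := Subgroup.card_mul_index (Subgroup.centralizer ({x} : Set P))
    split_ifs with h
    · rw [mem_center_iff_index.mpr h, mul_one] at h2
      rw [h2]
    · rw [(hcs x).resolve_left fun h3 => h (mem_center_iff_index.mp h3)] at h2
      exact h2
  have h2 : (Irr P).card * Nat.card P * m = ∑ x : P,
      if x ∈ Subgroup.center P then Nat.card P * m else Nat.card P := by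
    rw [card_irr, Finset.sum_mul]
    exact Finset.sum_congr rfl fun x _ => h1 x
  rw [Finset.sum_ite, Finset.sum_const, Finset.sum_const, smul_eq_mul, smul_eq_mul] at h2
  have h3 : (Finset.univ.filter fun x : P => x ∈ Subgroup.center P).card =
      Nat.card (Subgroup.center P) := by
    rw [Nat.card_eq_fintype_card, Fintype.card_subtype]
  have h4 := Finset.card_filter_add_card_filter_not (s := (Finset.univ : Finset P))
    (fun x => x ∈ Subgroup.center P)
  rw [h3, Finset.card_univ, ← Nat.card_eq_fintype_card] at h4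
  rw [h3] at h2
  have h5 : 0 < Nat.card P := Nat.card_pos
  refine Nat.eq_of_mul_eq_mul_right h5 ?_
  calc ((Irr P).card * m + Nat.card (Subgroup.center P)) * Nat.card P
      = (Irr P).card * Nat.card P * m + Nat.card (Subgroup.center P) * Nat.card P := by ring
    _ = Nat.card (Subgroup.center P) * m * Nat.card P +
        (Nat.card (Subgroup.center P) +
          (Finset.univ.filter fun x : P => ¬ x ∈ Subgroup.center P).card) * Nat.card P := by
        rw [h2]
        ring
    _ = (Nat.card (Subgroup.center P) * m + Nat.card P) * Nat.card P := by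
        rw [h4]
        ring

/-- the class of a noncentral element of a group whose noncentral classes have size `|P'|` -/
theorem class_eq {m : ℕ} (hm : Nat.card (commutator P) = m) {x : P}
    (hx : (Subgroup.centralizer ({x} : Set P)).index = m) {c : P} (hc : c ∈ commutator P) :
    ∃ y : P, y * x * y⁻¹ = x * c := by
  -- the map y ↦ x⁻¹ y x y⁻¹ has image of size m inside P'
  have h1 : Nat.card (Set.range fun y : P => x⁻¹ * (y * x * y⁻¹)) = m := by
    rw [← hx]
    have e : Nat.card (Set.range fun y : P => x⁻¹ * (y * x * y⁻¹)) =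
        Nat.card (P ⧸ Subgroup.centralizer ({x} : Set P)) := by
      refine (Nat.card_congr (Equiv.ofBijective
        (fun q : P ⧸ Subgroup.centralizer ({x} : Set P) =>
          Quotient.liftOn' q (fun y => (⟨x⁻¹ * (y * x * y⁻¹), y, rfl⟩ :
            Set.range fun y : P => x⁻¹ * (y * x * y⁻¹))) ?_) ?_)).symm
      · intro y z h
        rw [QuotientGroup.leftRel_apply, Subgroup.mem_centralizer_singleton_iff] at h
        refine Subtype.ext ?_
        change x⁻¹ * (y * x * y⁻¹) = x⁻¹ * (z * x * z⁻¹)
        congr 1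
        have h2 : y⁻¹ * z * x = x * (y⁻¹ * z) := h
        calc y * x * y⁻¹ = y * (x * (y⁻¹ * z)) * z⁻¹ := by group
          _ = y * (y⁻¹ * z * x) * z⁻¹ := by rw [h2]
          _ = z * x * z⁻¹ := by group
      · constructor
        · intro q r
          induction q using Quotient.inductionOn'
          induction r using Quotient.inductionOn'
          rename_i y z
          intro h
          have h3 : x⁻¹ * (y * x * y⁻¹) = x⁻¹ * (z * x * z⁻¹) := congrArg Subtype.val h
          have h4 : y * x * y⁻¹ = z * x * z⁻¹ := mul_left_cancel h3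
          refine Quotient.sound' ?_
          rw [QuotientGroup.leftRel_apply, Subgroup.mem_centralizer_singleton_iff]
          calc y⁻¹ * z * x = y⁻¹ * (z * x * z⁻¹) * z := by group
            _ = y⁻¹ * (y * x * y⁻¹) * z := by rw [h4]
            _ = x * (y⁻¹ * z) := by group
        · rintro ⟨_, y, rfl⟩
          exact ⟨Quotient.mk'' y, rfl⟩
    rw [e, Subgroup.index]
  have h2 : (Set.range fun y : P => x⁻¹ * (y * x * y⁻¹)) ⊆ (commutator P : Set P) := by
    rintro _ ⟨y, rfl⟩
    have h3 : x⁻¹ * (y * x * y⁻¹) = ⁅x⁻¹, y⁆ := by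
      rw [commutatorElement_def]
      group
    change x⁻¹ * (y * x * y⁻¹) ∈ commutator P
    rw [h3]
    exact Subgroup.commutator_mem_commutator (Subgroup.mem_top _) (Subgroup.mem_top _)
  have h3 : (Set.range fun y : P => x⁻¹ * (y * x * y⁻¹)) = (commutator P : Set P) := by
    refine Set.eq_of_subset_of_ncard_le h2 ?_ (Set.toFinite _)
    rw [← Nat.card_coe_set_eq, ← Nat.card_coe_set_eq, h1]
    exact hm.le
  have h4 : c ∈ (Set.range fun y : P => x⁻¹ * (y * x * y⁻¹)) := by
    rw [h3]
    exact hc
  obtain ⟨y, hy⟩ := h4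
  exact ⟨y, by rw [← hy]; group⟩

theorem main {p : ℕ} (hp : p.Prime) (hP : IsPGroup p P) {a b : ℕ} (ha : 0 < a) (hb : 0 < b)
    (hdeg : ∀ χ ∈ Irr P, ndeg χ = 1 ∨ ndeg χ = p ^ a)
    (hcs : ∀ x : P, (Subgroup.centralizer ({x} : Set P)).index = 1 ∨
      (Subgroup.centralizer ({x} : Set P)).index = p ^ b)
    (hx : ∃ x : P, (Subgroup.centralizer ({x} : Set P)).index = p ^ b) :
    (b = 2 * a ∧ (commutator P).index = Nat.card (Subgroup.center P)) ∨
      (b < 2 * a ∧ Nat.card (commutator P) = p ^ b ∧ (Subgroup.center P).index = p ^ (2 * a) ∧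
        commutator P ≤ Subgroup.center P ∧
        ∀ x : P, x ∉ Subgroup.center P → ∀ c ∈ commutator P, ∃ y : P, y * x * y⁻¹ = x * c) := by
  haveI := Fact.mk hp
  obtain ⟨n, hn⟩ := (IsPGroup.iff_card).mp hP
  obtain ⟨x, hx⟩ := hx
  have hpb : p ^ b ≠ 1 := (Nat.one_lt_pow hb.ne' hp.one_lt).ne'
  have hxc : x ∉ Subgroup.center P := by
    intro h
    rw [mem_center_iff_index.mpr h] at hx
    exact hpb hx.symm
  obtain ⟨κ, hκ⟩ := (IsPGroup.iff_card).mp (hP.to_subgroup (commutator P))
  obtain ⟨ζ, hζ⟩ := (IsPGroup.iff_card).mp (hP.to_subgroup (Subgroup.center P))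
  have hρ' := Subgroup.card_mul_index (commutator P)
  have hζ' := Subgroup.card_mul_index (Subgroup.center P)
  obtain ⟨ρ, -, hρ⟩ := (Nat.dvd_prime_pow hp).mp (hn ▸ (commutator P).index_dvd_card)
  obtain ⟨η, -, hη⟩ := (Nat.dvd_prime_pow hp).mp (hn ▸ (Subgroup.center P).index_dvd_card)
  rw [hκ, hρ, hn, ← pow_add] at hρ'
  rw [hζ, hη, hn, ← pow_add] at hζ'
  have hρn := Nat.pow_right_injective hp.two_le hρ'
  have hζn := Nat.pow_right_injective hp.two_le hζ'
  have hκ0 : κ ≠ 0 := by
    rintro rfl
    rw [pow_zero, Subgroup.card_eq_one] at hκ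
    apply hxc
    rw [Subgroup.mem_center_iff]
    intro g
    have h1 : ⁅g, x⁆ ∈ commutator P :=
      Subgroup.commutator_mem_commutator (Subgroup.mem_top _) (Subgroup.mem_top _)
    rw [hκ, Subgroup.mem_bot, commutatorElement_eq_one_iff_mul_comm] at h1
    exact h1
  have hη0 : η ≠ 0 := by
    rintro rfl
    rw [pow_zero, Subgroup.index_eq_one] at hη
    exact hxc (hη ▸ Subgroup.mem_top x)
  have e1 := eq_one (d := p ^ a) (c := p ^ (2 * a)) hdeg (by rw [mul_comm, pow_mul]) hρ
  have e2 := eq_two hcs
  rw [hn] at e1 e2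
  rw [hζ] at e2
  rcases arith hp (c := 2 * a) (by omega) hb (by omega) (by omega) e1 e2 with ⟨h1, h2⟩ | ⟨h1, h2⟩
  · left
    refine ⟨h1, ?_⟩
    rw [hρ, hζ, h2]
  · right
    have h3 : κ = b := by omega
    have h4 : η = 2 * a := by omega
    subst h3
    have hcl : ∀ x : P, x ∉ Subgroup.center P → ∀ c ∈ commutator P, ∃ y : P,
        y * x * y⁻¹ = x * c := by
      intro z hz c hc
      refine class_eq hκ ?_ hc
      exact (hcs z).resolve_left fun h => hz (mem_center_iff_index.mp h)
    refine ⟨?_, hκ, by rw [hη, h4], ?_, hcl⟩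
    · have h5 : Subgroup.center P < Subgroup.centralizer ({x} : Set P) := by
        refine lt_of_le_of_ne (Subgroup.center_le_centralizer _) fun h => hxc ?_
        rw [h]
        exact Subgroup.mem_centralizer_singleton_iff.mpr rfl
      have h6 := Subgroup.card_mul_index (Subgroup.centralizer ({x} : Set P))
      have h7 := Subgroup.card_mul_index (Subgroup.center P)
      have h8 : Nat.card (Subgroup.center P) < Nat.card (Subgroup.centralizer ({x} : Set P)) := by
        have := Set.ncard_lt_ncard (SetLike.coe_ssubset_coe.mpr h5) (Set.toFinite _)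
        simpa [← Nat.card_coe_set_eq] using this
      rw [hx] at h6
      rw [hη, h4, ← h6] at h7
      have h9 : p ^ κ < p ^ (2 * a) := by
        by_contra hcon
        push Not at hcon
        have h10 : 0 < p ^ κ := pow_pos hp.pos _
        nlinarith
      exact (Nat.pow_lt_pow_iff_right hp.one_lt).mp h9
    · intro c hc
      by_contra hcz
      obtain ⟨y, hy⟩ := hcl c hcz c⁻¹ (inv_mem hc)
      rw [mul_inv_cancel] at hy
      have : c = 1 := by
        have h5 : c = y⁻¹ * (y * c * y⁻¹) * y := by group
        rw [h5, hy]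
        group
      exact hcz (this ▸ one_mem _)

end Pool.Agent.Helper92.CD
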