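import Pool.Agent.Helper92.CD.Hg

/-!
# Degrees and class sizes of the groups `HG f`
-/

set_option autoImplicit false
set_option linter.unusedSectionVars false
set_option linter.style.haveILetI false

open scoped BigOperators Classical commutatorElement

noncomputable section

namespace Pool.Agent.Helper92.CD

open Pool.Agent.Helper884 Pool.Agent.H254R3.IN
open Pool.Agent.K3h3.MK Pool.Agent.K3h3.KB
open IC (Irr)

variable {V W : Type} [AddCommGroup V] [AddCommGroup W] {f : V →+ V →+ W}

theorem mem_cent (x g : HG f) :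
    g ∈ Subgroup.centralizer ({x} : Set (HG f)) ↔ f x.v g.v = f g.v x.v := by
  rw [Subgroup.mem_centralizer_singleton_iff, HG.ext_iff]
  simp only [mul_v, mul_w]
  constructor
  · rintro ⟨-, h⟩
    rw [add_comm g.w x.w] at h
    exact (add_left_cancel h).symm
  · intro h
    exact ⟨add_comm _ _, by rw [h, add_comm g.w x.w]⟩

theorem index_cent [Finite V] [Finite W] (x : HG f) {m : ℕ}
    (h : Nat.card {v' : V // f x.v v' = f v' x.v} * m = Nat.card V) :
    (Subgroup.centralizer ({x} : Set (HG f))).index = m := by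
  have h1 : Nat.card (Subgroup.centralizer ({x} : Set (HG f))) =
      Nat.card {v' : V // f x.v v' = f v' x.v} * Nat.card W := by
    rw [← Nat.card_prod]
    exact Nat.card_congr ⟨fun g => (⟨g.1.v, (mem_cent x g.1).mp g.2⟩, g.1.w),
      fun q => ⟨⟨q.1.1, q.2⟩, (mem_cent x _).mpr q.1.2⟩, fun _ => rfl, fun _ => rfl⟩
  have h2 := Subgroup.card_mul_index (Subgroup.centralizer ({x} : Set (HG f)))
  have h3 : 0 < Nat.card (Subgroup.centralizer ({x} : Set (HG f))) := Nat.card_pos
  refine Nat.eq_of_mul_eq_mul_left h3 ?_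
  rw [h2, h1, card_HG, ← h]
  ring

theorem realize [Finite V] [Finite W] {p n m a b : ℕ} (hp : p.Prime) (ha : 0 < a) (hb : 0 < b)
    (hn : 0 < n) (hm : 0 < m) (hV : Nat.card V = p ^ n) (hW : Nat.card W = p ^ m)
    (H1 : ∀ v : V, v ≠ 0 → Nat.card {v' : V // f v v' = f v' v} * p ^ b = Nat.card V)
    (H2 : ∀ N : AddSubgroup W, N ≠ ⊤ →
      Nat.card {v : V // ∀ v', f v' v - f v v' ∈ N} * p ^ (2 * a) ≤ Nat.card V)
    (H5 : p ^ (2 * a) * (p ^ m * p ^ b + p ^ n * p ^ m) + p ^ b * p ^ n =
      p ^ b * (p ^ n * p ^ m) + p ^ (2 * a) * (p ^ m + p ^ n * p ^ b)) :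
    (∀ χ : HG f → ℂ, IsIrr χ → ndeg χ = 1 ∨ ndeg χ = p ^ a) ∧
      (∃ χ : HG f → ℂ, IsIrr χ ∧ ndeg χ = 1) ∧ (∃ χ : HG f → ℂ, IsIrr χ ∧ ndeg χ = p ^ a) ∧
      (∀ x : HG f, (Subgroup.centralizer ({x} : Set (HG f))).index = 1 ∨
        (Subgroup.centralizer ({x} : Set (HG f))).index = p ^ b) ∧
      (∃ x : HG f, (Subgroup.centralizer ({x} : Set (HG f))).index = 1) ∧
      ∃ x : HG f, (Subgroup.centralizer ({x} : Set (HG f))).index = p ^ b := by
  have i0 : Fintype (HG f) := Fintype.ofFinite _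
  have hpb : p ^ b ≠ 1 := (Nat.one_lt_pow hb.ne' hp.one_lt).ne'
  have hc1 : 1 < p ^ (2 * a) := Nat.one_lt_pow (by omega) hp.one_lt
  have hV1 : 1 < Nat.card V := hV ▸ Nat.one_lt_pow hn.ne' hp.one_lt
  have hW1 : 1 < Nat.card W := hW ▸ Nat.one_lt_pow hm.ne' hp.one_lt
  have hx0 : ∀ x : HG f, x.v = 0 → (Subgroup.centralizer ({x} : Set (HG f))).index = 1 := by
    intro x hx
    refine index_cent x ?_
    rw [mul_one]
    refine Nat.card_congr (Equiv.subtypeUnivEquiv fun v' => ?_)
    rw [hx, map_zero, map_zero, AddMonoidHom.zero_apply]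
  have hx1 : ∀ x : HG f, x.v ≠ 0 →
      (Subgroup.centralizer ({x} : Set (HG f))).index = p ^ b := fun x hx =>
    index_cent x (H1 _ hx)
  have hcs : ∀ x : HG f, (Subgroup.centralizer ({x} : Set (HG f))).index = 1 ∨
      (Subgroup.centralizer ({x} : Set (HG f))).index = p ^ b := by
    intro x
    by_cases hx : x.v = 0
    · exact Or.inl (hx0 x hx)
    · exact Or.inr (hx1 x hx)
  have e2 := eq_two hcs
  have hZ : Nat.card (Subgroup.center (HG f)) = Nat.card W := by
    have h1 : ∀ x : HG f, x ∈ Subgroup.center (HG f) ↔ x.v = 0 := by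
      intro x
      rw [← mem_center_iff_index]
      constructor
      · intro h
        by_contra hx
        rw [hx1 x hx] at h
        exact hpb h
      · exact hx0 x
    exact Nat.card_congr ⟨fun x => x.1.w, fun w => ⟨⟨0, w⟩, (h1 _).mpr rfl⟩,
      fun x => Subtype.ext (HG.ext ((h1 _).mp x.2).symm rfl), fun _ => rfl⟩
  rw [hZ, card_HG] at e2
  have hl : (commutator (HG f)).index ≤ Nat.card V := by
    let N : AddSubgroup W :=
      { carrier := {w | zz f w ∈ commutator (HG f)}
        zero_mem' := by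
          change zz f 0 ∈ commutator (HG f)
          rw [zz_zero]
          exact one_mem _
        add_mem' := by
          intro w w' h h'
          change zz f (w + w') ∈ commutator (HG f)
          rw [zz_add]
          exact mul_mem h h'
        neg_mem' := by
          intro w h
          change zz f (-w) ∈ commutator (HG f)
          have h1 : zz f (-w) = (zz f w)⁻¹ := by
            rw [eq_inv_iff_mul_eq_one, ← zz_add, neg_add_cancel, zz_zero]
          rw [h1]
          exact inv_mem h }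
    have hN : N = ⊤ := by
      by_contra hN
      have h1 := H2 N hN
      have h2 : Nat.card {v : V // ∀ v', f v' v - f v v' ∈ N} = Nat.card V := by
        refine Nat.card_congr (Equiv.subtypeUnivEquiv fun v v' => ?_)
        change zz f (f v' v - f v v') ∈ commutator (HG f)
        have h3 : ⁅(⟨v', 0⟩ : HG f), (⟨v, 0⟩ : HG f)⁆ ∈ commutator (HG f) :=
          Subgroup.commutator_mem_commutator (Subgroup.mem_top _) (Subgroup.mem_top _)
        rw [commutatorElement_def, mul_eq (⟨v', 0⟩ : HG f) (⟨v, 0⟩ : HG f), mul_assoc,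
          mul_assoc, mul_assoc, mul_inv_cancel_left, mul_inv_cancel, mul_one] at h3
        exact h3
      rw [h2] at h1
      nlinarith
    have h1 : Nat.card W ≤ Nat.card (commutator (HG f)) := by
      refine Nat.card_le_card_of_injective (fun w : W => (⟨zz f w, ?_⟩ : commutator (HG f))) ?_
      · have h2 : w ∈ N := by
          rw [hN]
          exact AddSubgroup.mem_top _
        exact h2
      · intro w w' h
        exact congrArg HG.w (congrArg Subtype.val h)
    have h2 := Subgroup.card_mul_index (commutator (HG f))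
    rw [card_HG] at h2
    by_contra hcon
    push Not at hcon
    have h3 : 0 < Nat.card W := by omega
    nlinarith
  have hlow : ∀ χ : HG f → ℂ, IsIrr χ → ndeg χ ≠ 1 → p ^ (2 * a) ≤ ndeg χ ^ 2 := by
    intro χ hχ h1
    obtain ⟨N, hN⟩ := deg_lemma hχ
    have hNt : N ≠ ⊤ := by
      rintro rfl
      have h2 : Nat.card {v : V // ∀ v', f v' v - f v v' ∈ (⊤ : AddSubgroup W)} =
          Nat.card V :=
        Nat.card_congr (Equiv.subtypeUnivEquiv fun v v' => AddSubgroup.mem_top _)
      rw [h2] at hN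
      have h3 : ndeg χ ^ 2 = 1 := by
        refine Nat.eq_of_mul_eq_mul_right (by omega : 0 < Nat.card V) ?_
        rw [hN, one_mul]
      exact h1 (by simpa using h3)
    have h2 := H2 N hNt
    rw [← hN] at h2
    have h3 : 0 < Nat.card {v : V // ∀ v', f v' v - f v v' ∈ N} := by
      have : Nonempty {v : V // ∀ v', f v' v - f v v' ∈ N} :=
        ⟨⟨0, fun v' => by
          rw [map_zero, map_zero, AddMonoidHom.zero_apply, sub_zero]
          exact zero_mem _⟩⟩
      exact Nat.card_pos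
    rw [mul_comm] at h2
    exact Nat.le_of_mul_le_mul_right h2 h3
  -- the sum of the squares
  have h1 := sum_sq (G := HG f)
  rw [← Finset.sum_filter_add_sum_filter_not (Irr (HG f)) (fun χ => ndeg χ = 1)] at h1
  have h2 : ∑ χ ∈ (Irr (HG f)).filter (fun χ => ndeg χ = 1), ndeg χ ^ 2 =
      (commutator (HG f)).index := by
    rw [Finset.sum_congr rfl (g := fun _ => 1) fun χ hχ => by
      rw [(Finset.mem_filter.mp hχ).2, one_pow]]
    rw [Finset.sum_const, smul_eq_mul, mul_one, card_lin]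
  have h4 := Finset.card_filter_add_card_filter_not (s := Irr (HG f)) (fun χ => ndeg χ = 1)
  rw [card_lin] at h4
  rw [h2, card_HG] at h1
  set l := (commutator (HG f)).index with hldef
  set K := ((Irr (HG f)).filter (fun χ => ¬ ndeg χ = 1)).card with hK
  rw [← hV, ← hW] at H5
  have hbpos : 0 < p ^ b := pow_pos hp.pos _
  have h6 : p ^ (2 * a) * (l + K) + Nat.card V =
      Nat.card V * Nat.card W + p ^ (2 * a) * Nat.card V := by
    refine Nat.eq_of_mul_eq_mul_right hbpos ?_
    rw [← h4] at e2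
    have e3 : p ^ (2 * a) * ((l + K) * p ^ b + Nat.card W) =
        p ^ (2 * a) * (Nat.card W * p ^ b + Nat.card V * Nat.card W) := by rw [e2]
    linarith
  have hkey : ∀ χ : HG f → ℂ, IsIrr χ → ndeg χ = 1 ∨ ndeg χ = p ^ a := by
    by_contra hcon
    push Not at hcon
    obtain ⟨χ, hχ, h7, h8⟩ := hcon
    have h9 : ∑ χ ∈ (Irr (HG f)).filter (fun χ => ¬ ndeg χ = 1), p ^ (2 * a) <
        ∑ χ ∈ (Irr (HG f)).filter (fun χ => ¬ ndeg χ = 1), ndeg χ ^ 2 := by
      refine Finset.sum_lt_sum (fun ψ hψ => ?_) ⟨χ, ?_, ?_⟩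
      · obtain ⟨h10, h11⟩ := Finset.mem_filter.mp hψ
        exact hlow ψ (IC.mem_Irr.mp h10) h11
      · exact Finset.mem_filter.mpr ⟨IC.mem_Irr.mpr hχ, h7⟩
      · refine lt_of_le_of_ne (hlow χ hχ h7) fun h => h8 ?_
        have h12 : (p ^ a) ^ 2 = ndeg χ ^ 2 := by
          rw [← h, mul_comm, pow_mul]
        exact (Nat.pow_left_injective two_ne_zero h12).symm
    rw [Finset.sum_const, smul_eq_mul, ← hK] at h9
    nlinarith
  refine ⟨hkey, ?_, ?_, hcs, ⟨1, hx0 _ rfl⟩, ?_⟩
  · have h7 : ((Irr (HG f)).filter fun χ => ndeg χ = 1).Nonempty := by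
      rw [← Finset.card_pos, card_lin]
      exact Nat.pos_of_ne_zero Subgroup.index_ne_zero_of_finite
    obtain ⟨χ, hχ⟩ := h7
    obtain ⟨h8, h9⟩ := Finset.mem_filter.mp hχ
    exact ⟨χ, IC.mem_Irr.mp h8, h9⟩
  · have h7 : 0 < K := by
      by_contra h8
      have h9 : K = 0 := by omega
      rw [h9, add_zero] at h6
      nlinarith
    rw [hK, Finset.card_pos] at h7
    obtain ⟨χ, hχ⟩ := h7
    obtain ⟨h8, h9⟩ := Finset.mem_filter.mp hχ
    exact ⟨χ, IC.mem_Irr.mp h8, (hkey χ (IC.mem_Irr.mp h8)).resolve_left h9⟩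
  · have : Nontrivial V := Finite.one_lt_card_iff_nontrivial.mp hV1
    obtain ⟨v, hv⟩ := exists_ne (0 : V)
    exact ⟨⟨v, 0⟩, hx1 _ hv⟩

end Pool.Agent.Helper92.CD
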